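import Pool.Agent.H27.G.R_pool_sql_team_seeded_620a6dc7.helper24_UT_.Zsx
import Pool.Agent.H27.G.R_pool_sql_team_seeded_620a6dc7.helper24_UT_.T1
import Pool.Agent.H27.G.R_pool_sql_team_seeded_620a6dc7.helper24_UT_.Rs
import Pool.Agent.H27.G.R_pool_sql_team_seeded_620a6dc7.helper24_UT_.Rz
import Pool.Agent.H27.G.R_pool_sql_team_seeded_620a6dc7.helper24_UT_.Fb
import Pool.Agent.H27.G.R_pool_sql_team_seeded_620a6dc7.helper24_UT_.T341
import Pool.Agent.H27.G.R_pool_sql_team_seeded_620a6dc7.helper24_UT_.Conv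
import Pool.Agent.H27.G.R_pool_sql_team_seeded_620a6dc7.helper24_UT_.Gb
import Pool.Agent.H27.G.R_pool_sql_team_seeded_620a6dc7.helper24_UT_.Riesz
import Pool.Agent.H27.G.R_pool_sql_team_seeded_620a6dc7.helper24_UT_.Pg
import Pool.Agent.H27.G.R_pool_sql_team_seeded_620a6dc7.helper24_UT_.P1
import Pool.Agent.H27.G.R_pool_sql_team_seeded_620a6dc7.helper24_UT_.M1
import Pool.Agent.H27.G.R_pool_sql_team_seeded_620a6dc7.helper24_UT_.Pap
import Pool.Agent.H27.G.R_pool_sql_team_seeded_620a6dc7.helper24_UT_.Al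
import Pool.Agent.H27.G.R_pool_sql_team_seeded_620a6dc7.helper24_UT_.II
import Pool.Agent.H27.G.R_pool_sql_team_seeded_620a6dc7.helper24_UT_.TI2
import Pool.Agent.H27.G.R_pool_sql_team_seeded_620a6dc7.helper24_UT_.Frl2
import Pool.Agent.H27.G.R_pool_sql_team_seeded_620a6dc7.helper24_UT_.Fr2
import Pool.Agent.H27.G.R_pool_sql_team_seeded_620a6dc7.helper24_UT_.Win
import Pool.Agent.H27.G.R_pool_sql_team_seeded_620a6dc7.helper24_UT_.Sil2

set_option autoImplicit false

/-!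
# Primes in almost all intervals of length `X ^ (1 / 2) (log X) ^ C` (assembly)
-/

namespace Pool.Agent.Helper855N.Asm

open Pool.Agent.helper24_UT

theorem t_T1 : S_T1 := T1.main Zsx.main
theorem t_GB : S_GB := Gb.main Rs.main Rz.main (Fb.main Rz.main) T341.main Conv.main
theorem t_PG : S_PG := Pg.main t_GB Riesz.main
theorem t_P1 : S_P1 := P1.main t_T1 t_PG
theorem t_M1 : S_M1 := M1.main t_P1
theorem t_PAP : S_PAP := (Pap.main t_P1 t_M1).1
theorem t_MAP : S_MAP := (Pap.main t_P1 t_M1).2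
theorem t_AL : S_AL := Al.main t_T1 t_MAP
theorem t_II : S_II := II.main t_AL t_PAP
theorem t_FRL2 : S_FRL2 := Frl2.main t_II TI2.main
theorem t_FR2 : S_FR2 := Fr2.main t_FRL2
theorem t_SIL2 : S_SIL2 := Sil2.main Win.main t_FR2

end Pool.Agent.Helper855N.Asm
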