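import Pool.Agent.H27.G.R_pool_sql_team_seeded_620a6dc7.Helper855N.Cond

set_option autoImplicit false
set_option linter.unusedSectionVars false

/-! The dyadic filtration and indicators of properties of `⌊t α⌋`. -/

namespace Pool.Agent.Helper855N

open MeasureTheory Filter Topology Finset

/-- the index of the dyadic interval of level `k` -/
noncomputable def fl (k : ℕ) (α : ℝ) : ℤ := ⌊(2 : ℝ) ^ k * α⌋

lemma fl_meas (k : ℕ) : Measurable (fl k) := (measurable_id.const_mul ((2 : ℝ) ^ k)).floor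

/-- the dyadic σ-algebra -/
@[reducible]
noncomputable def FF (k : ℕ) : MeasurableSpace ℝ := MeasurableSpace.comap (fl k) ⊤

lemma FF_le (k : ℕ) : FF k ≤ (inferInstance : MeasurableSpace ℝ) := (fl_meas k).comap_le

lemma fl_half (k : ℕ) (α : ℝ) : fl k α = fl (k + 1) α / 2 := by
  have h1 := Int.floor_le ((2 : ℝ) ^ k * α)
  have h2 := Int.lt_floor_add_one ((2 : ℝ) ^ k * α)
  have h3 := Int.floor_le ((2 : ℝ) ^ (k + 1) * α)
  have h4 := Int.lt_floor_add_one ((2 : ℝ) ^ (k + 1) * α)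
  have e : (2 : ℝ) ^ (k + 1) * α = 2 * (2 ^ k * α) := by ring
  unfold fl
  obtain ⟨a, ha⟩ : ∃ a, a = ⌊(2 : ℝ) ^ k * α⌋ := ⟨_, rfl⟩
  obtain ⟨b, hb⟩ : ∃ b, b = ⌊(2 : ℝ) ^ (k + 1) * α⌋ := ⟨_, rfl⟩
  rw [← ha] at h1 h2 ⊢
  rw [← hb] at h3 h4 ⊢
  have h5 : 2 * a < b + 1 := by
    have : (2 * (a : ℝ)) < b + 1 := by linarith
    exact_mod_cast this
  have h6 : b < 2 * (a + 1) := by
    have : (b : ℝ) < 2 * (a + 1) := by linarith
    exact_mod_cast this
  omega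

lemma FF_mono : Monotone FF := monotone_nat_of_le_succ (fun k => by
  unfold FF
  have e : fl k = (fun z : ℤ => z / 2) ∘ fl (k + 1) := funext (fl_half k)
  rw [e, ← MeasurableSpace.comap_comp]
  exact MeasurableSpace.comap_mono le_top)

lemma FF_const (k : ℕ) (f : ℝ → ℝ) (hf : Measurable[FF k] f) {α β : ℝ} (h : fl k α = fl k β) :
    f α = f β := by
  have h1 : MeasurableSet[FF k] (f ⁻¹' {f α}) := hf (measurableSet_singleton _)
  obtain ⟨A, -, hA⟩ := h1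
  have h2 : α ∈ fl k ⁻¹' A := by rw [hA]; rfl
  have h3 : β ∈ fl k ⁻¹' A := by
    change fl k β ∈ A
    rw [← h]
    exact h2
  rw [hA] at h3
  exact h3.symm

/-- Lebesgue measure on `[1, 2)` -/
noncomputable def mu : Measure ℝ := volume.restrict (Set.Ico 1 2)

instance : IsProbabilityMeasure mu := ⟨by
  unfold mu
  rw [Measure.restrict_apply_univ, Real.volume_Ico]
  norm_num⟩

open Classical in
/-- indicator of the dyadic intervals of level `k` on which `⌊t α⌋` is a constant with `P` -/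
noncomputable def XX (P : ℕ → Prop) (t : ℝ) (k : ℕ) (α : ℝ) : ℝ :=
  if P ⌊t * ((fl k α : ℝ) / 2 ^ k)⌋₊ ∧ t * (((fl k α : ℝ) + 1) / 2 ^ k) ≤ ⌊t * ((fl k α : ℝ) / 2 ^ k)⌋₊ + 1
  then 1 else 0

lemma XX_nonneg (P : ℕ → Prop) (t : ℝ) (k : ℕ) (α : ℝ) : 0 ≤ XX P t k α := by
  unfold XX; split_ifs <;> norm_num

lemma XX_le_one (P : ℕ → Prop) (t : ℝ) (k : ℕ) (α : ℝ) : XX P t k α ≤ 1 := by
  unfold XX; split_ifs <;> norm_num

lemma XX_meas (P : ℕ → Prop) (t : ℝ) (k : ℕ) : Measurable[FF k] (XX P t k) := by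
  classical
  obtain ⟨g, hg⟩ : ∃ g : ℤ → ℝ, g = (fun z : ℤ => if P ⌊t * ((z : ℝ) / 2 ^ k)⌋₊ ∧
      t * (((z : ℝ) + 1) / 2 ^ k) ≤ ⌊t * ((z : ℝ) / 2 ^ k)⌋₊ + 1 then (1 : ℝ) else 0) := ⟨_, rfl⟩
  have e : XX P t k = g ∘ fl k := by
    funext α
    rw [hg]
    unfold XX
    simp only [Function.comp_apply]
  rw [e]
  intro s hs
  exact ⟨g ⁻¹' s, trivial, rfl⟩

lemma fl_le (k : ℕ) (α : ℝ) : (fl k α : ℝ) / 2 ^ k ≤ α := by
  have h1 := Int.floor_le ((2 : ℝ) ^ k * α)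
  have h2 : (0 : ℝ) < 2 ^ k := by positivity
  rw [div_le_iff₀ h2]
  unfold fl
  linarith

lemma lt_fl (k : ℕ) (α : ℝ) : α < ((fl k α : ℝ) + 1) / 2 ^ k := by
  have h1 := Int.lt_floor_add_one ((2 : ℝ) ^ k * α)
  have h2 : (0 : ℝ) < 2 ^ k := by positivity
  rw [lt_div_iff₀ h2]
  unfold fl
  linarith

lemma XX_imp (P : ℕ → Prop) (t : ℝ) (ht : 0 < t) (k : ℕ) (α : ℝ) (hα : 0 ≤ α) (h : XX P t k α ≠ 0) :
    P ⌊t * α⌋₊ := by
  unfold XX at h
  split_ifs at h with h1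
  · obtain ⟨h2, h3⟩ := h1
    have h4 := fl_le k α
    have h5 := lt_fl k α
    have h6 : (0 : ℝ) ≤ (fl k α : ℝ) / 2 ^ k := by
      apply div_nonneg _ (by positivity)
      have : 0 ≤ fl k α := by
        unfold fl
        exact Int.floor_nonneg.2 (by positivity)
      exact_mod_cast this
    have h7 : ⌊t * α⌋₊ = ⌊t * ((fl k α : ℝ) / 2 ^ k)⌋₊ := by
      rw [Nat.floor_eq_iff (by positivity)]
      constructor
      · exact (Nat.floor_le (by positivity)).trans (mul_le_mul_of_nonneg_left h4 ht.le)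
      · exact lt_of_lt_of_le (mul_lt_mul_of_pos_left h5 ht) h3
    rw [h7]
    exact h2
  · exact absurd rfl h

lemma XX_one (P : ℕ → Prop) (t : ℝ) (ht : 0 < t) (k x : ℕ) (hx : P x) (α : ℝ)
    (h1 : (x : ℝ) / t + 1 / 2 ^ k ≤ α) (h2 : α < ((x : ℝ) + 1) / t - 1 / 2 ^ k) : XX P t k α = 1 := by
  have hp : (0 : ℝ) < 2 ^ k := by positivity
  have h4 := fl_le k α
  have h5 := lt_fl k α
  have e1 : ((fl k α : ℝ) + 1) / 2 ^ k = (fl k α : ℝ) / 2 ^ k + 1 / 2 ^ k := by rw [add_div]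
  have h6 : (x : ℝ) / t < (fl k α : ℝ) / 2 ^ k := by rw [e1] at h5; linarith
  have h7 : ((fl k α : ℝ) + 1) / 2 ^ k < ((x : ℝ) + 1) / t := by rw [e1]; linarith
  rw [div_lt_iff₀ ht] at h6
  rw [lt_div_iff₀ ht] at h7
  have h8 : (0 : ℝ) ≤ x := Nat.cast_nonneg x
  have hfl : ⌊t * ((fl k α : ℝ) / 2 ^ k)⌋₊ = x := by
    rw [Nat.floor_eq_iff (by linarith)]
    constructor
    · linarith
    · have : t * ((fl k α : ℝ) / 2 ^ k) ≤ t * (((fl k α : ℝ) + 1) / 2 ^ k) := by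
        apply mul_le_mul_of_nonneg_left _ ht.le
        rw [e1]
        have : 0 < 1 / (2 : ℝ) ^ k := by positivity
        linarith
      linarith
  unfold XX
  rw [if_pos]
  rw [hfl]
  exact ⟨hx, by linarith⟩

open Classical in
lemma cell_int (P : ℕ → Prop) (t : ℝ) (ht : 0 < t) (k : ℕ) (hk : 2 / (2 : ℝ) ^ k ≤ 1 / t) (a b : ℝ) (X Y : ℕ)
    (hX : t * a < X + 1) (hY : (X : ℝ) + Y + 1 ≤ t * b) :
    (((Finset.Ioc X (X + Y)).filter P).card : ℝ) * (1 / t - 2 / 2 ^ k) ≤ ∫ α in Set.Ico a b, XX P t k α := by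
  obtain ⟨S, hS⟩ : ∃ S, S = (Finset.Ioc X (X + Y)).filter P := ⟨_, rfl⟩
  rw [← hS]
  obtain ⟨J, hJ⟩ : ∃ J : ℕ → Set ℝ, J = fun x : ℕ => Set.Ico ((x : ℝ) / t + 1 / 2 ^ k) (((x : ℝ) + 1) / t - 1 / 2 ^ k) :=
    ⟨_, rfl⟩
  have hp : (0 : ℝ) < 1 / 2 ^ k := by positivity
  have hXm : Measurable (XX P t k) := (XX_meas P t k).mono (FF_le k) le_rfl
  have hint : ∀ s : Set ℝ, volume s ≠ ⊤ → IntegrableOn (XX P t k) s volume := by
    intro s hs
    have : IsFiniteMeasure (volume.restrict s) := ⟨by rw [Measure.restrict_apply_univ]; exact hs.lt_top⟩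
    apply Integrable.of_bound hXm.aestronglyMeasurable 1
    filter_upwards with α
    rw [Real.norm_eq_abs, abs_of_nonneg (XX_nonneg P t k α)]
    exact XX_le_one P t k α
  have hJm : ∀ x, MeasurableSet (J x) := fun x => by rw [hJ]; exact measurableSet_Ico
  have hJf : ∀ x, volume (J x) ≠ ⊤ := fun x => by rw [hJ]; simp [Real.volume_Ico]
  have hJi : ∀ x ∈ S, ∫ α in J x, XX P t k α = 1 / t - 2 / 2 ^ k := by
    intro x hx
    rw [hS, mem_filter] at hx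
    have e : ∫ α in J x, XX P t k α = ∫ α in J x, (1 : ℝ) := by
      apply setIntegral_congr_fun (hJm x)
      intro α hα
      rw [hJ] at hα
      exact XX_one P t ht k x hx.2 α hα.1 hα.2
    rw [e, setIntegral_const, smul_eq_mul, mul_one, hJ, Real.volume_real_Ico]
    have e2 : ((x : ℝ) + 1) / t - 1 / 2 ^ k - ((x : ℝ) / t + 1 / 2 ^ k) = 1 / t - 2 / 2 ^ k := by ring
    rw [e2]
    exact max_eq_left (by linarith)
  have hdisj : Set.Pairwise (S : Set ℕ) (Function.onFun Disjoint J) := by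
    have key : ∀ x y : ℕ, x < y → Disjoint (J x) (J y) := by
      intro x y hxy
      rw [Set.disjoint_left]
      intro α h1 h2
      rw [hJ] at h1 h2
      have h3 : ((x : ℝ) + 1) ≤ y := by exact_mod_cast hxy
      have h4 : ((x : ℝ) + 1) / t ≤ (y : ℝ) / t := div_le_div_of_nonneg_right h3 ht.le
      have h5 := h1.2
      have h6 := h2.1
      linarith
    intro x _ y _ hxy
    rcases Nat.lt_or_gt_of_ne hxy with h | h
    · exact key x y h
    · exact (key y x h).symm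
  have e1 : (S.card : ℝ) * (1 / t - 2 / 2 ^ k) = ∫ α in ⋃ x ∈ S, J x, XX P t k α := by
    rw [integral_biUnion_finset S (fun x _ => hJm x) hdisj (fun x _ => hint _ (hJf x)),
      sum_congr rfl hJi, sum_const, nsmul_eq_mul]
  rw [e1]
  apply setIntegral_mono_set
  · exact hint _ (by simp [Real.volume_Ico])
  · filter_upwards with α using XX_nonneg P t k α
  · apply LE.le.eventuallyLE
    intro α hα
    simp only [Set.mem_iUnion] at hα
    obtain ⟨x, hx, hα⟩ := hα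
    rw [hS, mem_filter, mem_Ioc] at hx
    rw [hJ] at hα
    have h1 : (X : ℝ) + 1 ≤ x := by exact_mod_cast hx.1.1
    have h2 : (x : ℝ) ≤ X + Y := by exact_mod_cast hx.1.2
    have h3 : a ≤ (x : ℝ) / t := by rw [le_div_iff₀ ht]; linarith
    have h4 : ((x : ℝ) + 1) / t ≤ b := by rw [div_le_iff₀ ht]; linarith
    exact ⟨by linarith [hα.1], by linarith [hα.2]⟩

/-- the conditional expectation on a dyadic interval -/
lemma condExp_cell (P : ℕ → Prop) (t : ℝ) (k ℓ : ℕ) (α : ℝ) (hα : α ∈ Set.Ico (1 : ℝ) 2) :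
    (mu[XX P t k | FF ℓ]) α =
      2 ^ ℓ * ∫ β in Set.Ico ((fl ℓ α : ℝ) / 2 ^ ℓ) (((fl ℓ α : ℝ) + 1) / 2 ^ ℓ), XX P t k β := by
  have hp : (0 : ℝ) < 2 ^ ℓ := by positivity
  obtain ⟨i, hi⟩ : ∃ i, i = fl ℓ α := ⟨_, rfl⟩
  rw [← hi]
  obtain ⟨I, hI⟩ : ∃ I : Set ℝ, I = Set.Ico ((i : ℝ) / 2 ^ ℓ) (((i : ℝ) + 1) / 2 ^ ℓ) := ⟨_, rfl⟩
  rw [← hI]
  have hIe : I = fl ℓ ⁻¹' {i} := by
    rw [hI]
    ext β
    rw [Set.mem_Ico, Set.mem_preimage, Set.mem_singleton_iff, div_le_iff₀ hp, lt_div_iff₀ hp]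
    unfold fl
    rw [Int.floor_eq_iff]
    constructor
    · rintro ⟨h1, h2⟩; exact ⟨by linarith, by linarith⟩
    · rintro ⟨h1, h2⟩; exact ⟨by linarith, by linarith⟩
  have hIm : MeasurableSet[FF ℓ] I := ⟨{i}, trivial, hIe.symm⟩
  have hi1 : (2 : ℤ) ^ ℓ ≤ i := by
    rw [hi]
    unfold fl
    rw [Int.le_floor]
    push_cast
    nlinarith [hα.1]
  have hi2 : i + 1 ≤ 2 * (2 : ℤ) ^ ℓ := by
    have : i < 2 * (2 : ℤ) ^ ℓ := by
      rw [hi]
      unfold fl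
      rw [Int.floor_lt]
      push_cast
      nlinarith [hα.2]
    omega
  have hsub : I ⊆ Set.Ico (1 : ℝ) 2 := by
    rw [hI]
    intro β hβ
    have g1 : (2 : ℝ) ^ ℓ ≤ i := by exact_mod_cast hi1
    have g2 : (i : ℝ) + 1 ≤ 2 * 2 ^ ℓ := by exact_mod_cast hi2
    constructor
    · refine le_trans ?_ hβ.1
      rw [le_div_iff₀ hp]; linarith
    · refine lt_of_lt_of_le hβ.2 ?_
      rw [div_le_iff₀ hp]; linarith
  have hXm : Measurable (XX P t k) := (XX_meas P t k).mono (FF_le k) le_rfl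
  have hXi : Integrable (XX P t k) mu := by
    apply Integrable.of_bound hXm.aestronglyMeasurable 1
    filter_upwards with β
    rw [Real.norm_eq_abs, abs_of_nonneg (XX_nonneg P t k β)]
    exact XX_le_one P t k β
  have hr : mu.restrict I = volume.restrict I := by
    unfold mu
    exact Measure.restrict_restrict_of_subset hsub
  have h1 : ∫ β in I, (mu[XX P t k | FF ℓ]) β ∂mu = ∫ β in I, XX P t k β ∂mu :=
    setIntegral_condExp (FF_le ℓ) hXi hIm
  rw [hr] at h1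
  have hfm : Measurable[FF ℓ] (mu[XX P t k | FF ℓ]) := stronglyMeasurable_condExp.measurable
  have h2 : ∫ β in I, (mu[XX P t k | FF ℓ]) β = ∫ β in I, (mu[XX P t k | FF ℓ]) α := by
    apply setIntegral_congr_fun (FF_le ℓ _ hIm)
    intro β hβ
    apply FF_const ℓ _ hfm
    rw [hIe] at hβ
    rw [← hi]
    exact hβ
  have h3 : volume.real I = 1 / 2 ^ ℓ := by
    rw [hI, Real.volume_real_Ico]
    have e : ((i : ℝ) + 1) / 2 ^ ℓ - (i : ℝ) / 2 ^ ℓ = 1 / 2 ^ ℓ := by ring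
    rw [e]
    exact max_eq_left (by positivity)
  rw [h2, setIntegral_const, smul_eq_mul, h3] at h1
  rw [← h1]
  field_simp

end Pool.Agent.Helper855N
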