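import Pool.Agent.H27.G.R_pool_sql_team_seeded_620a6dc7.Helper855N.Metric2

set_option autoImplicit false
set_option linter.unusedSectionVars false

/-! General increasing families instead of dilates: `⌊f α⌋` with `f` strictly increasing. -/

namespace Pool.Agent.Helper855N

open MeasureTheory Filter Topology Finset

open Classical in
/-- indicator of the dyadic intervals of level `k` on which `⌊f α⌋` is a constant with `P` -/
noncomputable def GX (P : ℕ → Prop) (f : ℝ → ℝ) (k : ℕ) (α : ℝ) : ℝ :=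
  if P ⌊f ((fl k α : ℝ) / 2 ^ k)⌋₊ ∧ f (((fl k α : ℝ) + 1) / 2 ^ k) ≤ ⌊f ((fl k α : ℝ) / 2 ^ k)⌋₊ + 1
  then 1 else 0

lemma GX_nonneg (P : ℕ → Prop) (f : ℝ → ℝ) (k : ℕ) (α : ℝ) : 0 ≤ GX P f k α := by
  unfold GX; split_ifs <;> norm_num

lemma GX_le_one (P : ℕ → Prop) (f : ℝ → ℝ) (k : ℕ) (α : ℝ) : GX P f k α ≤ 1 := by
  unfold GX; split_ifs <;> norm_num

lemma GX_meas (P : ℕ → Prop) (f : ℝ → ℝ) (k : ℕ) : Measurable[FF k] (GX P f k) := by
  classical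
  obtain ⟨g, hg⟩ : ∃ g : ℤ → ℝ, g = (fun z : ℤ => if P ⌊f ((z : ℝ) / 2 ^ k)⌋₊ ∧
      f (((z : ℝ) + 1) / 2 ^ k) ≤ ⌊f ((z : ℝ) / 2 ^ k)⌋₊ + 1 then (1 : ℝ) else 0) := ⟨_, rfl⟩
  have e : GX P f k = g ∘ fl k := by
    funext α
    rw [hg]
    unfold GX
    simp only [Function.comp_apply]
  rw [e]
  intro s hs
  exact ⟨g ⁻¹' s, trivial, rfl⟩

lemma GX_imp (P : ℕ → Prop) (f : ℝ → ℝ) (hf : StrictMono f) (hf0 : 0 ≤ f 0) (k : ℕ) (α : ℝ) (hα : 0 ≤ α)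
    (h : GX P f k α ≠ 0) : P ⌊f α⌋₊ := by
  unfold GX at h
  split_ifs at h with h1
  · obtain ⟨h2, h3⟩ := h1
    have h4 := fl_le k α
    have h5 := lt_fl k α
    have h6 : (0 : ℝ) ≤ (fl k α : ℝ) / 2 ^ k := by
      apply div_nonneg _ (by positivity)
      have : 0 ≤ fl k α := by
        unfold fl
        exact Int.floor_nonneg.2 (by positivity)
      exact_mod_cast this
    have h8 : 0 ≤ f ((fl k α : ℝ) / 2 ^ k) := hf0.trans (hf.monotone h6)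
    have h9 : 0 ≤ f α := hf0.trans (hf.monotone hα)
    have h7 : ⌊f α⌋₊ = ⌊f ((fl k α : ℝ) / 2 ^ k)⌋₊ := by
      rw [Nat.floor_eq_iff h9]
      constructor
      · exact (Nat.floor_le h8).trans (hf.monotone h4)
      · exact lt_of_lt_of_le (hf h5) h3
    rw [h7]
    exact h2
  · exact absurd rfl h

lemma GX_one (P : ℕ → Prop) (f : ℝ → ℝ) (hf : StrictMono f) (k x : ℕ) (hx : P x) (g0 g1 : ℝ) (h0 : f g0 = x)
    (h1 : f g1 = (x : ℝ) + 1) (α : ℝ) (h2 : g0 + 1 / 2 ^ k ≤ α) (h3 : α < g1 - 1 / 2 ^ k) : GX P f k α = 1 := by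
  have hp : (0 : ℝ) < 2 ^ k := by positivity
  have h4 := fl_le k α
  have h5 := lt_fl k α
  have e1 : ((fl k α : ℝ) + 1) / 2 ^ k = (fl k α : ℝ) / 2 ^ k + 1 / 2 ^ k := by rw [add_div]
  have h6 : g0 < (fl k α : ℝ) / 2 ^ k := by rw [e1] at h5; linarith
  have h7 : ((fl k α : ℝ) + 1) / 2 ^ k < g1 := by rw [e1]; linarith
  have h6' : (x : ℝ) < f ((fl k α : ℝ) / 2 ^ k) := by rw [← h0]; exact hf h6
  have h7' : f (((fl k α : ℝ) + 1) / 2 ^ k) < (x : ℝ) + 1 := by rw [← h1]; exact hf h7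
  have h8 : (0 : ℝ) ≤ x := Nat.cast_nonneg x
  have h9 : f ((fl k α : ℝ) / 2 ^ k) ≤ f (((fl k α : ℝ) + 1) / 2 ^ k) := by
    apply hf.monotone
    rw [e1]
    have : 0 < 1 / (2 : ℝ) ^ k := by positivity
    linarith
  have hfl : ⌊f ((fl k α : ℝ) / 2 ^ k)⌋₊ = x := by
    rw [Nat.floor_eq_iff (by linarith)]
    exact ⟨h6'.le, by linarith⟩
  unfold GX
  rw [if_pos]
  rw [hfl]
  exact ⟨hx, h7'.le⟩

open Classical in
lemma gcell_int (P : ℕ → Prop) (f g : ℝ → ℝ) (hf : StrictMono f) (k : ℕ) (a b ρ : ℝ) (X Y : ℕ)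
    (hfg : ∀ y : ℝ, (X : ℝ) + 1 ≤ y → f (g y) = y)
    (hX : f a < X + 1) (hY : (X : ℝ) + Y + 1 ≤ f b)
    (hρ : ∀ x : ℕ, X < x → x ≤ X + Y → ρ ≤ g ((x : ℝ) + 1) - g x) (hk : 2 / (2 : ℝ) ^ k ≤ ρ) :
    (((Finset.Ioc X (X + Y)).filter P).card : ℝ) * (ρ - 2 / 2 ^ k) ≤ ∫ α in Set.Ico a b, GX P f k α := by
  obtain ⟨S, hS⟩ : ∃ S, S = (Finset.Ioc X (X + Y)).filter P := ⟨_, rfl⟩
  rw [← hS]
  obtain ⟨J, hJ⟩ : ∃ J : ℕ → Set ℝ, J = fun x : ℕ => Set.Ico (g (x : ℝ) + 1 / 2 ^ k) (g ((x : ℝ) + 1) - 1 / 2 ^ k) :=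
    ⟨_, rfl⟩
  have hp : (0 : ℝ) < 1 / 2 ^ k := by positivity
  have hXm : Measurable (GX P f k) := (GX_meas P f k).mono (FF_le k) le_rfl
  have hint : ∀ s : Set ℝ, volume s ≠ ⊤ → IntegrableOn (GX P f k) s volume := by
    intro s hs
    have : IsFiniteMeasure (volume.restrict s) := ⟨by rw [Measure.restrict_apply_univ]; exact hs.lt_top⟩
    apply Integrable.of_bound hXm.aestronglyMeasurable 1
    filter_upwards with α
    rw [Real.norm_eq_abs, abs_of_nonneg (GX_nonneg P f k α)]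
    exact GX_le_one P f k α
  have hJm : ∀ x, MeasurableSet (J x) := fun x => by rw [hJ]; exact measurableSet_Ico
  have hJf : ∀ x, volume (J x) ≠ ⊤ := fun x => by rw [hJ]; simp [Real.volume_Ico]
  have hxy : ∀ x : ℕ, X < x → (X : ℝ) + 1 ≤ x := fun x hx => by exact_mod_cast hx
  have hgm : ∀ y z : ℝ, (X : ℝ) + 1 ≤ y → y ≤ z → g y ≤ g z := by
    intro y z hy hyz
    by_contra hcon
    push Not at hcon
    have := hf hcon
    rw [hfg y hy, hfg z (hy.trans hyz)] at this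
    linarith
  have hJi : ∀ x ∈ S, ρ - 2 / 2 ^ k ≤ ∫ α in J x, GX P f k α := by
    intro x hx
    rw [hS, mem_filter, mem_Ioc] at hx
    have hx1 := hxy x hx.1.1
    have e : ∫ α in J x, GX P f k α = ∫ α in J x, (1 : ℝ) := by
      apply setIntegral_congr_fun (hJm x)
      intro α hα
      rw [hJ] at hα
      exact GX_one P f hf k x hx.2 _ _ (hfg x hx1) (hfg _ (by linarith)) α hα.1 hα.2
    rw [e, setIntegral_const, smul_eq_mul, mul_one, hJ, Real.volume_real_Ico]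
    refine le_trans ?_ (le_max_left _ _)
    have h1 := hρ x hx.1.1 hx.1.2
    have e2 : (2 : ℝ) / 2 ^ k = 1 / 2 ^ k + 1 / 2 ^ k := by ring
    rw [e2]
    linarith
  have hdisj : Set.Pairwise (S : Set ℕ) (Function.onFun Disjoint J) := by
    have key : ∀ x y : ℕ, X < x → x < y → Disjoint (J x) (J y) := by
      intro x y hx hxy'
      rw [Set.disjoint_left]
      intro α h1 h2
      rw [hJ] at h1 h2
      have h3 : ((x : ℝ) + 1) ≤ y := by exact_mod_cast hxy'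
      have h4 : g ((x : ℝ) + 1) ≤ g (y : ℝ) := hgm _ _ (by have := hxy x hx; linarith) h3
      have h5 := h1.2
      have h6 := h2.1
      linarith
    intro x hx y hy hxy'
    rw [mem_coe, hS, mem_filter, mem_Ioc] at hx hy
    rcases Nat.lt_or_gt_of_ne hxy' with h | h
    · exact key x y hx.1.1 h
    · exact (key y x hy.1.1 h).symm
  have e1 : (S.card : ℝ) * (ρ - 2 / 2 ^ k) ≤ ∫ α in ⋃ x ∈ S, J x, GX P f k α := by
    rw [integral_biUnion_finset S (fun x _ => hJm x) hdisj (fun x _ => hint _ (hJf x))]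
    calc (S.card : ℝ) * (ρ - 2 / 2 ^ k) = ∑ x ∈ S, (ρ - 2 / 2 ^ k) := by rw [sum_const, nsmul_eq_mul]
      _ ≤ ∑ x ∈ S, ∫ α in J x, GX P f k α := sum_le_sum hJi
  refine e1.trans ?_
  apply setIntegral_mono_set
  · exact hint _ (by simp [Real.volume_Ico])
  · filter_upwards with α using GX_nonneg P f k α
  · apply LE.le.eventuallyLE
    intro α hα
    simp only [Set.mem_iUnion] at hα
    obtain ⟨x, hx, hα⟩ := hα
    rw [hS, mem_filter, mem_Ioc] at hx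
    rw [hJ] at hα
    have h1 := hxy x hx.1.1
    have h2 : (x : ℝ) ≤ X + Y := by exact_mod_cast hx.1.2
    have h3 : a ≤ g (x : ℝ) := by
      by_contra hcon
      push Not at hcon
      have := hf hcon
      rw [hfg x h1] at this
      linarith
    have h4 : g ((x : ℝ) + 1) ≤ b := by
      by_contra hcon
      push Not at hcon
      have := hf hcon
      rw [hfg _ (by linarith)] at this
      linarith
    exact ⟨by linarith [hα.1], by linarith [hα.2]⟩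

/-- the conditional expectation on a dyadic interval -/
lemma gcondExp_cell (P : ℕ → Prop) (f : ℝ → ℝ) (k ℓ : ℕ) (α : ℝ) (hα : α ∈ Set.Ico (1 : ℝ) 2) :
    (mu[GX P f k | FF ℓ]) α =
      2 ^ ℓ * ∫ β in Set.Ico ((fl ℓ α : ℝ) / 2 ^ ℓ) (((fl ℓ α : ℝ) + 1) / 2 ^ ℓ), GX P f k β := by
  have hp : (0 : ℝ) < 2 ^ ℓ := by positivity
  obtain ⟨i, hi⟩ : ∃ i, i = fl ℓ α := ⟨_, rfl⟩
  rw [← hi]
  obtain ⟨I, hI⟩ : ∃ I : Set ℝ, I = Set.Ico ((i : ℝ) / 2 ^ ℓ) (((i : ℝ) + 1) / 2 ^ ℓ) := ⟨_, rfl⟩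
  rw [← hI]
  have hIe : I = fl ℓ ⁻¹' {i} := by
    rw [hI]
    ext β
    rw [Set.mem_Ico, Set.mem_preimage, Set.mem_singleton_iff, div_le_iff₀ hp, lt_div_iff₀ hp]
    unfold fl
    rw [Int.floor_eq_iff]
    constructor
    · rintro ⟨h1, h2⟩; exact ⟨by linarith, by linarith⟩
    · rintro ⟨h1, h2⟩; exact ⟨by linarith, by linarith⟩
  have hIm : MeasurableSet[FF ℓ] I := ⟨{i}, trivial, hIe.symm⟩
  obtain ⟨g1, g2⟩ := fl_bounds ℓ α hα
  rw [← hi] at g1 g2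
  have hsub : I ⊆ Set.Ico (1 : ℝ) 2 := by
    rw [hI]
    intro β hβ
    constructor
    · refine le_trans ?_ hβ.1
      rw [le_div_iff₀ hp]; linarith
    · refine lt_of_lt_of_le hβ.2 ?_
      rw [div_le_iff₀ hp]; linarith
  have hXm : Measurable (GX P f k) := (GX_meas P f k).mono (FF_le k) le_rfl
  have hXi : Integrable (GX P f k) mu := by
    apply Integrable.of_bound hXm.aestronglyMeasurable 1
    filter_upwards with β
    rw [Real.norm_eq_abs, abs_of_nonneg (GX_nonneg P f k β)]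
    exact GX_le_one P f k β
  have hr : mu.restrict I = volume.restrict I := by
    unfold mu
    exact Measure.restrict_restrict_of_subset hsub
  have h1 : ∫ β in I, (mu[GX P f k | FF ℓ]) β ∂mu = ∫ β in I, GX P f k β ∂mu :=
    setIntegral_condExp (FF_le ℓ) hXi hIm
  rw [hr] at h1
  have hfm : Measurable[FF ℓ] (mu[GX P f k | FF ℓ]) := stronglyMeasurable_condExp.measurable
  have h2 : ∫ β in I, (mu[GX P f k | FF ℓ]) β = ∫ β in I, (mu[GX P f k | FF ℓ]) α := by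
    apply setIntegral_congr_fun (FF_le ℓ _ hIm)
    intro β hβ
    apply FF_const ℓ _ hfm
    rw [hIe] at hβ
    rw [← hi]
    exact hβ
  have h3 : volume.real I = 1 / 2 ^ ℓ := by
    rw [hI, Real.volume_real_Ico]
    have e : ((i : ℝ) + 1) / 2 ^ ℓ - (i : ℝ) / 2 ^ ℓ = 1 / 2 ^ ℓ := by ring
    rw [e]
    exact max_eq_left (by positivity)
  rw [h2, setIntegral_const, smul_eq_mul, h3] at h1
  rw [← h1]
  field_simp

/-- fine level -/
noncomputable def k5 (T : ℝ) : ℕ := ⌈5 * Real.logb 2 T⌉₊ + 1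

lemma ll_lt_k5 (σ T : ℝ) (hσ0 : 0 ≤ σ) (hσ : σ ≤ 1) (hT : 1 ≤ T) : ll σ T < k5 T := by
  have h0 := logb_nonneg' hT
  have h1 : (ll σ T : ℝ) ≤ σ * Real.logb 2 T := Nat.floor_le (by positivity)
  have h2 : 5 * Real.logb 2 T ≤ (⌈5 * Real.logb 2 T⌉₊ : ℝ) := Nat.le_ceil _
  have h3 : σ * Real.logb 2 T ≤ 1 * Real.logb 2 T := mul_le_mul_of_nonneg_right hσ h0
  have h4 : (ll σ T : ℝ) ≤ (⌈5 * Real.logb 2 T⌉₊ : ℝ) := by linarith
  have h5 : ll σ T ≤ ⌈5 * Real.logb 2 T⌉₊ := by exact_mod_cast h4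
  unfold k5
  omega

lemma two_pow_k5 (T : ℝ) (hT : 1 ≤ T) : 2 * T ^ 5 ≤ (2 : ℝ) ^ (k5 T) := by
  have hT0 : 0 < T := by linarith
  have h2 : 5 * Real.logb 2 T ≤ (⌈5 * Real.logb 2 T⌉₊ : ℝ) := Nat.le_ceil _
  have e1 : (2 : ℝ) ^ (Real.logb 2 T) = T := Real.rpow_logb (by norm_num) (by norm_num) hT0
  have e2 : (2 : ℝ) ^ (5 * Real.logb 2 T) = T ^ 5 := by
    rw [mul_comm, Real.rpow_mul (by norm_num), e1]
    norm_num
  have h3 : (2 : ℝ) ^ (5 * Real.logb 2 T) ≤ (2 : ℝ) ^ ((⌈5 * Real.logb 2 T⌉₊ : ℕ) : ℝ) :=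
    Real.rpow_le_rpow_of_exponent_le (by norm_num) h2
  rw [e2, Real.rpow_natCast] at h3
  unfold k5
  have e : (2 : ℝ) ^ (⌈5 * Real.logb 2 T⌉₊ + 1) = 2 ^ ⌈5 * Real.logb 2 T⌉₊ * 2 := pow_succ _ _
  rw [e]
  linarith

lemma lt_two_pow_ll (σ T : ℝ) (hT : 1 ≤ T) : T ^ σ < 2 * (2 : ℝ) ^ (ll σ T) := by
  have hT0 : 0 < T := by linarith
  have h1 : σ * Real.logb 2 T < (ll σ T : ℝ) + 1 := Nat.lt_floor_add_one _
  have e1 : (2 : ℝ) ^ (Real.logb 2 T) = T := Real.rpow_logb (by norm_num) (by norm_num) hT0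
  have e2 : (2 : ℝ) ^ (σ * Real.logb 2 T) = T ^ σ := by
    rw [mul_comm, Real.rpow_mul (by norm_num), e1]
  have h3 : (2 : ℝ) ^ (σ * Real.logb 2 T) < (2 : ℝ) ^ (((ll σ T + 1 : ℕ)) : ℝ) := by
    apply Real.rpow_lt_rpow_of_exponent_lt (by norm_num)
    push_cast
    exact h1
  rw [e2, Real.rpow_natCast, pow_succ] at h3
  linarith

end Pool.Agent.Helper855N
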