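import Pool.Agent.H27.G.R_pool_sql_team_seeded_620a6dc7.Helper855N.NumA
import Pool.Agent.H27.G.R_pool_sql_team_seeded_620a6dc7.Helper855N.Gen

set_option autoImplicit false
set_option linter.unusedSectionVars false

/-! The means over the cells. -/

namespace Pool.Agent.Helper855N

open Finset Filter Topology

/-- the primes in almost all short intervals (mean square) -/
def MS : Prop := ∃ C₀ X₀ : ℕ, ∀ X : ℕ, X₀ ≤ X → ∀ W : ℕ, (X : ℝ) ^ (1 / 2 : ℝ) * (Real.log X) ^ C₀ ≤ W → W ≤ X →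
  ∑ u ∈ range X, (∑ n ∈ Ioc u (u + W), (ArithmeticFunction.vonMangoldt n - 1)) ^ 2 ≤
    X * (W : ℝ) ^ 2 / (Real.log X) ^ 16

lemma ev_logpow (k : ℕ) (c δ : ℝ) (hδ : 0 < δ) : ∀ᶠ T : ℝ in atTop, c * Real.log T ^ k ≤ T ^ δ := by
  have h := isLittleO_log_rpow_rpow_atTop (k : ℝ) hδ
  have h1 := h.bound (show (0 : ℝ) < 1 / (|c| + 1) by positivity)
  filter_upwards [h1, eventually_ge_atTop (1 : ℝ)] with T h2 h3
  have hl : 0 ≤ Real.log T := Real.log_nonneg h3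
  rw [Real.rpow_natCast, Real.norm_eq_abs, Real.norm_eq_abs, abs_of_nonneg (pow_nonneg hl k),
    abs_of_nonneg (Real.rpow_nonneg (by linarith) _)] at h2
  have hc : 0 < |c| + 1 := by positivity
  rw [one_div, inv_mul_eq_div, le_div_iff₀ hc] at h2
  have h4 : c * Real.log T ^ k ≤ Real.log T ^ k * (|c| + 1) := by
    have : c ≤ |c| + 1 := by linarith [le_abs_self c]
    nlinarith [pow_nonneg hl k]
  linarith

/-- the number of cells -/
noncomputable def pp (σ T : ℝ) : ℕ := 2 ^ (ll σ T)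

lemma cells_sum (hMS : MS) (σ : ℝ) (hσ0 : 0 < σ) (hσ1 : σ ≤ 1 / 3) :
    ∀ᶠ T : ℝ in atTop, ∀ H : ℕ, 1 ≤ H → (H : ℝ) ≤ T ^ (1 - 2 * σ) →
      ∑ i ∈ Ico (pp σ T) (2 * pp σ T), |∑ x ∈ Ioc ⌊T * ((i : ℝ) / pp σ T)⌋₊
        (⌊T * ((i : ℝ) / pp σ T)⌋₊ + ⌊T / pp σ T⌋₊), (gg H x - 1)| ≤ 40 * T / (Real.log T) ^ 3 := by
  obtain ⟨C₀, X₀, hMS⟩ := hMS
  have ev1 := ev_logpow 4 100 σ hσ0
  have ev2 := ev_logpow C₀ (10 * 2 ^ C₀) (1 / 6) (by norm_num)
  have ev3 := ev_logpow 8 100 (1 / 2) (by norm_num)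
  have ev4 : ∀ᶠ T : ℝ in atTop, 100 ≤ Real.log T := Real.tendsto_log_atTop.eventually_ge_atTop 100
  filter_upwards [ev1, ev2, ev3, ev4, eventually_ge_atTop ((X₀ : ℝ) + 100)] with T h1 h2 h3 h4 h5 H hH1 hH2
  have hX0n : (0 : ℝ) ≤ X₀ := Nat.cast_nonneg _
  have hT100 : 100 ≤ T := by linarith
  have hT1 : 1 ≤ T := by linarith
  have hT0 : 0 < T := by linarith
  obtain ⟨L, hL⟩ : ∃ L, L = Real.log T := ⟨_, rfl⟩
  rw [← hL] at h1 h2 h3 h4 ⊢
  have hL0 : 0 < L := by linarith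
  obtain ⟨p, hp⟩ : ∃ p : ℕ, p = pp σ T := ⟨_, rfl⟩
  rw [← hp]
  have hpr : (p : ℝ) = 2 ^ (ll σ T) := by rw [hp]; unfold pp; push_cast; rfl
  have hp1 : 1 ≤ p := by rw [hp]; unfold pp; exact Nat.one_le_two_pow
  have hp1r : (1 : ℝ) ≤ p := by exact_mod_cast hp1
  have hp0 : (0 : ℝ) < p := by linarith
  have hpT : (p : ℝ) ≤ T ^ σ := by rw [hpr]; exact two_pow_ll σ T hσ0.le hT1
  obtain ⟨y, hy⟩ : ∃ y, y = T / p := ⟨_, rfl⟩
  have hyp : y * p = T := by rw [hy]; field_simp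
  have hy0 : 0 < y := by rw [hy]; positivity
  rw [← hy]
  have hyT : T ^ (1 - σ) ≤ y := by
    rw [hy, le_div_iff₀ hp0]
    calc T ^ (1 - σ) * p ≤ T ^ (1 - σ) * T ^ σ := mul_le_mul_of_nonneg_left hpT (by positivity)
      _ = T := by rw [← Real.rpow_add hT0]; norm_num
  have hyle : y ≤ T := by rw [hy]; exact div_le_self hT0.le hp1r
  have hT12 : T ^ (1 - σ) = T ^ (1 - 2 * σ) * T ^ σ := by
    rw [← Real.rpow_add hT0]; congr 1; ring
  have hTpos : 1 ≤ T ^ (1 - 2 * σ) := Real.one_le_rpow hT1 (by linarith)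
  have hL4 : 0 < L ^ 4 := by positivity
  have hL41 : 100 ≤ L ^ 4 := by
    have : L ≤ L ^ 4 := le_self_pow₀ (by linarith) (by norm_num)
    linarith
  -- `100 L ^ 4 T ^ (1 - 2 σ) ≤ y`
  have hy1 : 100 * L ^ 4 * T ^ (1 - 2 * σ) ≤ y := by
    refine le_trans ?_ hyT
    rw [hT12]
    nlinarith
  have hy2 : 100 * L ^ 4 ≤ y := by nlinarith
  obtain ⟨Y, hY⟩ : ∃ Y : ℕ, Y = ⌊y⌋₊ := ⟨_, rfl⟩
  rw [← hY]
  have hYle : (Y : ℝ) ≤ y := by rw [hY]; exact Nat.floor_le (by linarith)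
  have hYge : y - 1 < Y := by rw [hY]; linarith [Nat.lt_floor_add_one y]
  obtain ⟨M, hM⟩ : ∃ M : ℕ, M = ⌊y / L ^ 4⌋₊ := ⟨_, rfl⟩
  have hMle : (M : ℝ) ≤ y / L ^ 4 := by rw [hM]; exact Nat.floor_le (div_nonneg hy0.le hL4.le)
  have hMge : y / L ^ 4 - 1 < M := by rw [hM]; linarith [Nat.lt_floor_add_one (y / L ^ 4)]
  have hyL : 100 ≤ y / L ^ 4 := by rw [le_div_iff₀ hL4]; linarith
  have hyL2 : y / L ^ 4 ≤ y / 100 := div_le_div_of_nonneg_left (by linarith) (by norm_num) hL41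
  have hM0 : (0 : ℝ) < M := by linarith
  have hM2 : y / L ^ 4 ≤ 2 * M := by linarith
  have hHM : H ≤ M := by
    have h6 : T ^ (1 - 2 * σ) * 100 ≤ y / L ^ 4 := by rw [le_div_iff₀ hL4]; linarith
    have : (H : ℝ) ≤ M := by linarith
    exact_mod_cast this
  obtain ⟨A, hA⟩ : ∃ A : ℕ → ℕ, A = fun i : ℕ => ⌊T * ((i : ℝ) / p)⌋₊ := ⟨_, rfl⟩
  have hAle : ∀ i : ℕ, (A i : ℝ) ≤ T * ((i : ℝ) / p) := fun i => by rw [hA]; exact Nat.floor_le (by positivity)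
  have hAge : ∀ i : ℕ, T * ((i : ℝ) / p) - 1 < A i := fun i => by
    rw [hA]; linarith [Nat.lt_floor_add_one (T * ((i : ℝ) / p))]
  have hAs : ∀ i : ℕ, T * (((i : ℝ) + 1) / p) = T * ((i : ℝ) / p) + y := fun i => by rw [hy]; ring
  have hA1 : ∀ i, p ≤ i → i < 2 * p → A i + M ≤ A (i + 1) := by
    intro i _ _
    have g1 := hAle i
    have g2 := hAge (i + 1)
    push_cast at g2
    rw [hAs] at g2
    have : (A i : ℝ) + M < (A (i + 1) : ℝ) + 1 := by linarith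
    have : (A i + M : ℕ) < A (i + 1) + 1 := by exact_mod_cast this
    omega
  obtain ⟨N, hN⟩ : ∃ N : ℕ, N = ⌊5 * T⌋₊ := ⟨_, rfl⟩
  have hNle : (N : ℝ) ≤ 5 * T := by rw [hN]; exact Nat.floor_le (by positivity)
  have hNge : 5 * T - 1 < N := by rw [hN]; linarith [Nat.lt_floor_add_one (5 * T)]
  have hi2 : ∀ i : ℕ, i < 2 * p → T * ((i : ℝ) / p) + y ≤ 2 * T := by
    intro i hi
    rw [← hAs, mul_comm 2 T]
    apply mul_le_mul_of_nonneg_left _ hT0.le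
    rw [div_le_iff₀ hp0]
    exact_mod_cast hi
  have hN1 : ∀ i, p ≤ i → i < 2 * p → A i + M + Y ≤ N := by
    intro i _ hi
    have g1 := hAle i
    have g2 := hi2 i hi
    have : (A i : ℝ) + M + Y ≤ N := by linarith
    exact_mod_cast this
  have hN3 : 3 ≤ N := by
    have : (3 : ℝ) ≤ N := by linarith
    exact_mod_cast this
  have main := all_cells H M Y N p A hH1 hHM hA1 hN1 hN3
  have hAA : ∀ i : ℕ, ⌊T * ((i : ℝ) / p)⌋₊ = A i := fun i => by rw [hA]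
  simp_rw [hAA]
  obtain ⟨S, hS⟩ : ∃ S, S = ∑ i ∈ Ico p (2 * p), |∑ x ∈ Ioc (A i) (A i + Y), (gg H x - 1)| := ⟨_, rfl⟩
  rw [← hS] at main ⊢
  -- the mean value
  obtain ⟨X, hX⟩ : ∃ X : ℕ, X = ⌊3 * T⌋₊ := ⟨_, rfl⟩
  have hXle : (X : ℝ) ≤ 3 * T := by rw [hX]; exact Nat.floor_le (by positivity)
  have hXge : 3 * T - 1 < X := by rw [hX]; linarith [Nat.lt_floor_add_one (3 * T)]
  have hXX0 : X₀ ≤ X := by
    have : (X₀ : ℝ) ≤ X := by linarith
    exact_mod_cast this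
  have hAX : A (2 * p) ≤ X := by
    have g1 := hAle (2 * p)
    have e : T * (((2 * p : ℕ) : ℝ) / p) = 2 * T := by push_cast; field_simp
    rw [e] at g1
    have : (A (2 * p) : ℝ) ≤ X := by linarith
    exact_mod_cast this
  have hYX : Y ≤ X := by
    have : (Y : ℝ) ≤ X := by linarith
    exact_mod_cast this
  have hlogX : L ≤ Real.log X := by rw [hL]; exact Real.log_le_log hT0 (by linarith)
  have hlog5 : Real.log 5 ≤ 4 := by
    rw [Real.log_le_iff_le_exp (by norm_num)]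
    linarith [Real.add_one_le_exp (4 : ℝ)]
  have hlog5T : Real.log (5 * T) = Real.log 5 + L := by rw [hL]; exact Real.log_mul (by norm_num) hT0.ne'
  have hlogN : Real.log N ≤ 2 * L := by
    have : Real.log N ≤ Real.log (5 * T) := Real.log_le_log (by linarith) hNle
    linarith
  have hlogN0 : 0 ≤ Real.log N := Real.log_nonneg (by linarith)
  have hlogX2 : Real.log X ≤ 2 * L := by
    have : Real.log X ≤ Real.log (5 * T) := Real.log_le_log (by linarith) (by linarith)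
    linarith
  have hsq5 : √(5 * T) ≤ 3 * T ^ (1 / 2 : ℝ) := by
    rw [Real.sqrt_le_left (by positivity), mul_pow, ← Real.sqrt_eq_rpow, Real.sq_sqrt hT0.le]
    linarith
  have hWcond : (X : ℝ) ^ (1 / 2 : ℝ) * (Real.log X) ^ C₀ ≤ Y := by
    have g1 : (X : ℝ) ^ (1 / 2 : ℝ) ≤ 3 * T ^ (1 / 2 : ℝ) := by
      rw [← Real.sqrt_eq_rpow]
      exact (Real.sqrt_le_sqrt (by linarith)).trans hsq5
    have g2 : (Real.log X) ^ C₀ ≤ 2 ^ C₀ * L ^ C₀ := by
      rw [← mul_pow]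
      exact pow_le_pow_left₀ (by linarith) hlogX2 C₀
    have g3 : (X : ℝ) ^ (1 / 2 : ℝ) * (Real.log X) ^ C₀ ≤ 3 * T ^ (1 / 2 : ℝ) * (2 ^ C₀ * L ^ C₀) :=
      mul_le_mul g1 g2 (pow_nonneg (by linarith) _) (by positivity)
    have g4 : T ^ (2 / 3 : ℝ) ≤ y := (Real.rpow_le_rpow_of_exponent_le hT1 (by linarith)).trans hyT
    have g5 : T ^ (1 / 2 : ℝ) * T ^ (1 / 6 : ℝ) = T ^ (2 / 3 : ℝ) := by
      rw [← Real.rpow_add hT0]; norm_num
    have g6 : 10 * (T ^ (1 / 2 : ℝ) * (2 ^ C₀ * L ^ C₀)) ≤ T ^ (2 / 3 : ℝ) := by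
      rw [← g5]
      have := mul_le_mul_of_nonneg_left h2 (show 0 ≤ T ^ (1 / 2 : ℝ) by positivity)
      linarith
    linarith
  have hms := hMS X hXX0 Y hWcond hYX
  have hlX0 : 0 < Real.log X := by linarith
  obtain ⟨Dl, hDl⟩ : ∃ Dl : ℝ, Dl = ∑ u ∈ range X, |∑ n ∈ Ioc u (u + Y), (ArithmeticFunction.vonMangoldt n - 1)| :=
    ⟨_, rfl⟩
  have hDl2 : Dl ≤ X * Y / (Real.log X) ^ 8 := by
    refine (le_abs_self _).trans (abs_le_of_sq_le_sq ?_ (by positivity))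
    have g1 : Dl ^ 2 ≤ X * ∑ u ∈ range X, (∑ n ∈ Ioc u (u + Y), (ArithmeticFunction.vonMangoldt n - 1)) ^ 2 := by
      have := sq_sum_le_card_mul_sum_sq (s := range X)
        (f := fun u => |∑ n ∈ Ioc u (u + Y), (ArithmeticFunction.vonMangoldt n - 1)|)
      rw [card_range] at this
      simp_rw [sq_abs] at this
      rw [hDl]
      exact this
    refine g1.trans ((mul_le_mul_of_nonneg_left hms (Nat.cast_nonneg _)).trans (le_of_eq ?_))
    field_simp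
  have hDP := sum_DP X Y
  rw [← hDl] at hDP
  have hXYN : X + Y ≤ N := by
    have : (X : ℝ) + Y ≤ N := by linarith
    exact_mod_cast this
  have hX1 : 1 ≤ X := by
    have : (1 : ℝ) ≤ X := by linarith
    exact_mod_cast this
  have herr := sum_err (X + Y) (by omega)
  have herr2 : ∑ n ∈ Ioc 0 (X + Y), (ArithmeticFunction.vonMangoldt n - lam n) ≤ 12 * T ^ (1 / 2 : ℝ) * L := by
    refine herr.trans ?_
    have g1 : √((X + Y : ℕ) : ℝ) ≤ 3 * T ^ (1 / 2 : ℝ) := by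
      refine (Real.sqrt_le_sqrt ?_).trans hsq5
      push_cast
      linarith
    have g2 : Real.log ((X + Y : ℕ) : ℝ) ≤ 2 * L := by
      refine le_trans (Real.log_le_log ?_ (by exact_mod_cast hXYN)) hlogN
      push_cast
      linarith [show (0 : ℝ) ≤ Y from Nat.cast_nonneg _]
    have g3 : 0 ≤ Real.log ((X + Y : ℕ) : ℝ) := Real.log_nonneg (by
      push_cast
      linarith [show (0 : ℝ) ≤ Y from Nat.cast_nonneg _])
    calc 2 * √((X + Y : ℕ) : ℝ) * Real.log ((X + Y : ℕ) : ℝ) ≤ 2 * (3 * T ^ (1 / 2 : ℝ)) * (2 * L) := by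
          apply mul_le_mul _ g2 g3 (by positivity)
          linarith
      _ = 12 * T ^ (1 / 2 : ℝ) * L := by ring
  have hY0 : (0 : ℝ) ≤ Y := Nat.cast_nonneg _
  have hDPA : ∑ u ∈ range (A (2 * p)), |DP Y u| ≤ X * Y / (Real.log X) ^ 8 + Y * (12 * T ^ (1 / 2 : ℝ) * L) := by
    have g1 : ∑ u ∈ range (A (2 * p)), |DP Y u| ≤ ∑ u ∈ range X, |DP Y u| :=
      sum_le_sum_of_subset_of_nonneg (range_mono hAX) (fun u _ _ => abs_nonneg _)
    have g2 := mul_le_mul_of_nonneg_left herr2 hY0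
    linarith
  have hA8 : (X : ℝ) * Y / (Real.log X) ^ 8 ≤ Y * (3 * T / L ^ 8) := by
    have g1 : (X : ℝ) * Y / (Real.log X) ^ 8 ≤ (3 * T) * Y / L ^ 8 := by
      apply div_le_div₀ (by positivity) _ (by positivity) (pow_le_pow_left₀ hL0.le hlogX 8)
      exact mul_le_mul_of_nonneg_right hXle hY0
    refine g1.trans (le_of_eq ?_)
    ring
  have hTL : 12 * T ^ (1 / 2 : ℝ) * L ≤ T / L ^ 7 := by
    rw [le_div_iff₀ (by positivity)]
    have g1 : T ^ (1 / 2 : ℝ) * T ^ (1 / 2 : ℝ) = T := by rw [← Real.rpow_add hT0]; norm_num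
    have g2 := mul_le_mul_of_nonneg_left h3 (show 0 ≤ T ^ (1 / 2 : ℝ) by positivity)
    rw [g1] at g2
    have g3 : 0 ≤ T ^ (1 / 2 : ℝ) * L ^ 8 := by positivity
    calc 12 * T ^ (1 / 2 : ℝ) * L * L ^ 7 = 12 * (T ^ (1 / 2 : ℝ) * L ^ 8) := by ring
      _ ≤ T := by linarith
  have hT8 : 3 * T / L ^ 8 ≤ T / L ^ 7 := by
    rw [div_le_div_iff₀ (by positivity) (by positivity)]
    have : 0 ≤ T * L ^ 7 := by positivity
    calc 3 * T * L ^ 7 = 3 * (T * L ^ 7) := by ring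
      _ ≤ L * (T * L ^ 7) := mul_le_mul_of_nonneg_right (by linarith) this
      _ = T * L ^ 8 := by ring
  have hbig : (M : ℝ) * S ≤ Y * (2 * (T / L ^ 7)) + p * (M * (2 * M * (2 * L))) := by
    have g1 : (p : ℝ) * (M * (2 * M * Real.log N)) ≤ p * (M * (2 * M * (2 * L))) := by
      apply mul_le_mul_of_nonneg_left _ hp0.le
      apply mul_le_mul_of_nonneg_left _ hM0.le
      apply mul_le_mul_of_nonneg_left hlogN
      positivity
    have g2 := mul_le_mul_of_nonneg_left hTL hY0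
    have g3 := mul_le_mul_of_nonneg_left hT8 hY0
    linarith
  have hYM : (Y : ℝ) ≤ M * (2 * L ^ 4) := by
    rw [div_le_iff₀ hL4] at hM2
    linarith
  have hpM : (p : ℝ) * M ≤ T / L ^ 4 := by
    calc (p : ℝ) * M ≤ p * (y / L ^ 4) := mul_le_mul_of_nonneg_left hMle hp0.le
      _ = T / L ^ 4 := by rw [← hyp]; ring
  have hfin : (M : ℝ) * S ≤ M * (4 * T / L ^ 3 + 4 * T / L ^ 3) := by
    have g1 : (Y : ℝ) * (2 * (T / L ^ 7)) ≤ M * (2 * L ^ 4) * (2 * (T / L ^ 7)) :=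
      mul_le_mul_of_nonneg_right hYM (by positivity)
    have g2 : (M : ℝ) * (2 * L ^ 4) * (2 * (T / L ^ 7)) = M * (4 * T / L ^ 3) := by
      field_simp
      ring
    have g3 : (p : ℝ) * (M * (2 * M * (2 * L))) = M * (4 * L * (p * M)) := by ring
    have g4 : (M : ℝ) * (4 * L * (p * M)) ≤ M * (4 * L * (T / L ^ 4)) := by
      apply mul_le_mul_of_nonneg_left _ hM0.le
      exact mul_le_mul_of_nonneg_left hpM (by positivity)
    have g5 : (M : ℝ) * (4 * L * (T / L ^ 4)) = M * (4 * T / L ^ 3) := by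
      field_simp
    linarith
  have hfin2 := le_of_mul_le_mul_left hfin hM0
  refine hfin2.trans ?_
  have : 0 ≤ T / L ^ 3 := by positivity
  calc 4 * T / L ^ 3 + 4 * T / L ^ 3 = 8 * (T / L ^ 3) := by ring
    _ ≤ 40 * (T / L ^ 3) := by linarith
    _ = 40 * T / L ^ 3 := by ring

end Pool.Agent.Helper855N
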