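import Pool.Agent.H27.G.R_pool_sql_team_seeded_620a6dc7.Helper855N.Dyad

set_option autoImplicit false
set_option linter.unusedSectionVars false

/-! The metric theorem: a property which holds for a proportion `κ` of the integers of every interval
`(X, X + Y]`, `X ^ θ ≤ Y ≤ X`, holds along almost every dilate of a sequence. -/

namespace Pool.Agent.Helper855N

open MeasureTheory Filter Topology Finset

/-- fine level -/
noncomputable def kk (T : ℝ) : ℕ := ⌈2 * Real.logb 2 T⌉₊ + 1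

/-- coarse level -/
noncomputable def ll (σ T : ℝ) : ℕ := ⌊σ * Real.logb 2 T⌋₊

lemma logb_nonneg' {T : ℝ} (hT : 1 ≤ T) : 0 ≤ Real.logb 2 T := Real.logb_nonneg (by norm_num) hT

lemma ll_lt_kk (σ T : ℝ) (hσ0 : 0 ≤ σ) (hσ : σ ≤ 1) (hT : 1 ≤ T) : ll σ T < kk T := by
  have h0 := logb_nonneg' hT
  have h1 : (ll σ T : ℝ) ≤ σ * Real.logb 2 T := Nat.floor_le (by positivity)
  have h2 : 2 * Real.logb 2 T ≤ (⌈2 * Real.logb 2 T⌉₊ : ℝ) := Nat.le_ceil _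
  have h3 : σ * Real.logb 2 T ≤ 1 * Real.logb 2 T := mul_le_mul_of_nonneg_right hσ h0
  have h4 : (ll σ T : ℝ) ≤ (⌈2 * Real.logb 2 T⌉₊ : ℝ) := by linarith
  have h5 : ll σ T ≤ ⌈2 * Real.logb 2 T⌉₊ := by exact_mod_cast h4
  unfold kk
  omega

lemma two_pow_kk (T : ℝ) (hT : 1 ≤ T) : 2 * T ^ 2 ≤ (2 : ℝ) ^ (kk T) := by
  have hT0 : 0 < T := by linarith
  have h2 : 2 * Real.logb 2 T ≤ (⌈2 * Real.logb 2 T⌉₊ : ℝ) := Nat.le_ceil _
  have e1 : (2 : ℝ) ^ (Real.logb 2 T) = T := Real.rpow_logb (by norm_num) (by norm_num) hT0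
  have e2 : (2 : ℝ) ^ (2 * Real.logb 2 T) = T ^ 2 := by
    rw [mul_comm, Real.rpow_mul (by norm_num), e1]
    norm_num
  have h3 : (2 : ℝ) ^ (2 * Real.logb 2 T) ≤ (2 : ℝ) ^ ((⌈2 * Real.logb 2 T⌉₊ : ℕ) : ℝ) :=
    Real.rpow_le_rpow_of_exponent_le (by norm_num) h2
  rw [e2, Real.rpow_natCast] at h3
  unfold kk
  have e : (2 : ℝ) ^ (⌈2 * Real.logb 2 T⌉₊ + 1) = 2 ^ ⌈2 * Real.logb 2 T⌉₊ * 2 := pow_succ _ _
  rw [e]
  linarith

lemma two_pow_ll (σ T : ℝ) (hσ0 : 0 ≤ σ) (hT : 1 ≤ T) : (2 : ℝ) ^ (ll σ T) ≤ T ^ σ := by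
  have hT0 : 0 < T := by linarith
  have h0 := logb_nonneg' hT
  have h1 : (ll σ T : ℝ) ≤ σ * Real.logb 2 T := Nat.floor_le (by positivity)
  have e1 : (2 : ℝ) ^ (Real.logb 2 T) = T := Real.rpow_logb (by norm_num) (by norm_num) hT0
  have e2 : (2 : ℝ) ^ (σ * Real.logb 2 T) = T ^ σ := by
    rw [mul_comm, Real.rpow_mul (by norm_num), e1]
  have h3 : (2 : ℝ) ^ ((ll σ T : ℕ) : ℝ) ≤ (2 : ℝ) ^ (σ * Real.logb 2 T) :=
    Real.rpow_le_rpow_of_exponent_le (by norm_num) h1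
  rw [e2, Real.rpow_natCast] at h3
  exact h3

lemma fl_bounds (ℓ : ℕ) (α : ℝ) (hα : α ∈ Set.Ico (1 : ℝ) 2) :
    (2 : ℝ) ^ ℓ ≤ fl ℓ α ∧ (fl ℓ α : ℝ) + 1 ≤ 2 * 2 ^ ℓ := by
  have hp : (0 : ℝ) < 2 ^ ℓ := by positivity
  constructor
  · have : (2 : ℤ) ^ ℓ ≤ fl ℓ α := by
      unfold fl
      rw [Int.le_floor]
      push_cast
      nlinarith [hα.1]
    exact_mod_cast this
  · have : fl ℓ α < 2 * (2 : ℤ) ^ ℓ := by
      unfold fl
      rw [Int.floor_lt]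
      push_cast
      nlinarith [hα.2]
    have h2 : fl ℓ α + 1 ≤ 2 * (2 : ℤ) ^ ℓ := by omega
    exact_mod_cast h2

open Classical in
lemma cond_lower (P : ℕ → Prop) (θ κ : ℝ) (hθ0 : 0 < θ) (hθ1 : θ < 1) (hκ0 : 0 ≤ κ)
    (hP : ∀ᶠ X : ℕ in atTop, ∀ Y : ℕ, (X : ℝ) ^ θ ≤ Y → Y ≤ X →
      κ * Y ≤ (((Finset.Ioc X (X + Y)).filter P).card : ℝ)) (ε : ℝ) (hε : 0 < ε) :
    ∀ᶠ T : ℝ in atTop, ∀ α ∈ Set.Ico (1 : ℝ) 2,
      κ - ε ≤ (mu[XX P T (kk T) | FF (ll ((1 - θ) / 2) T)]) α := by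
  obtain ⟨X₀, hX₀⟩ := eventually_atTop.1 hP
  obtain ⟨σ, hσ⟩ : ∃ σ, σ = (1 - θ) / 2 := ⟨_, rfl⟩
  rw [← hσ]
  have hσ0 : 0 < σ := by rw [hσ]; linarith
  have hσ1 : σ < 1 := by rw [hσ]; linarith
  have ev1 : ∀ᶠ T : ℝ in atTop, 4 ≤ T ^ σ := (tendsto_rpow_atTop hσ0).eventually_ge_atTop 4
  have ev2 : ∀ᶠ T : ℝ in atTop, κ * (2 * T ^ (σ - 1) + 1 / T) < ε := by
    have h1 : Tendsto (fun T : ℝ => T ^ (σ - 1)) atTop (𝓝 0) := by
      have := tendsto_rpow_neg_atTop (y := 1 - σ) (by linarith)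
      simpa using this
    have h2 : Tendsto (fun T : ℝ => 1 / T) atTop (𝓝 0) := by
      simpa using tendsto_inv_atTop_zero (𝕜 := ℝ)
    have h3 : Tendsto (fun T : ℝ => κ * (2 * T ^ (σ - 1) + 1 / T)) atTop (𝓝 (κ * (2 * 0 + 0))) :=
      ((h1.const_mul 2).add h2).const_mul κ
    rw [mul_zero, add_zero, mul_zero] at h3
    exact h3.eventually (gt_mem_nhds hε)
  filter_upwards [ev1, ev2, eventually_ge_atTop ((X₀ : ℝ) + 4)] with T h1 h2 h3 α hα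
  have hX0n : (0 : ℝ) ≤ X₀ := Nat.cast_nonneg _
  have hT4 : 4 ≤ T := by linarith
  have hT1 : 1 ≤ T := by linarith
  have hT0 : 0 < T := by linarith
  obtain ⟨p, hp⟩ : ∃ p : ℝ, p = 2 ^ (ll σ T) := ⟨_, rfl⟩
  have hp1 : 1 ≤ p := by rw [hp]; exact one_le_pow₀ (by norm_num)
  have hp0 : 0 < p := by linarith
  have hpT : p ≤ T ^ σ := by rw [hp]; exact two_pow_ll σ T hσ0.le hT1
  obtain ⟨i, hi⟩ : ∃ i, i = fl (ll σ T) α := ⟨_, rfl⟩
  obtain ⟨hb1, hb2⟩ := fl_bounds (ll σ T) α hα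
  rw [condExp_cell P T (kk T) (ll σ T) α hα]
  rw [← hi, ← hp] at hb1 hb2 ⊢
  have hi0 : (0 : ℝ) < i := by linarith
  have hk := two_pow_kk T hT1
  obtain ⟨q, hq⟩ : ∃ q : ℝ, q = 2 ^ (kk T) := ⟨_, rfl⟩
  rw [← hq] at hk
  have hq0 : 0 < q := by nlinarith
  have hT1p : T ^ (1 - σ) ≤ T / p := by
    rw [le_div_iff₀ hp0]
    calc T ^ (1 - σ) * p ≤ T ^ (1 - σ) * T ^ σ := mul_le_mul_of_nonneg_left hpT (by positivity)
      _ = T := by rw [← Real.rpow_add hT0]; norm_num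
  have hbig : (2 * T) ^ θ + 2 ≤ T ^ (1 - σ) := by
    have e1 : (2 * T) ^ θ = 2 ^ θ * T ^ θ := Real.mul_rpow (by norm_num) hT0.le
    have h5 : (2 : ℝ) ^ θ ≤ 2 := by
      calc (2 : ℝ) ^ θ ≤ 2 ^ (1 : ℝ) := Real.rpow_le_rpow_of_exponent_le (by norm_num) hθ1.le
        _ = 2 := Real.rpow_one 2
    have h6 : 1 ≤ T ^ θ := Real.one_le_rpow hT1 hθ0.le
    have e2 : T ^ (1 - σ) = T ^ θ * T ^ σ := by
      rw [← Real.rpow_add hT0]
      congr 1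
      rw [hσ]; ring
    rw [e1, e2]
    nlinarith
  obtain ⟨X, hX⟩ : ∃ X : ℕ, X = ⌊T * ((i : ℝ) / p)⌋₊ := ⟨_, rfl⟩
  obtain ⟨Y, hY⟩ : ∃ Y : ℕ, Y = ⌊T / p⌋₊ - 1 := ⟨_, rfl⟩
  have h2T : 0 < (2 * T) ^ θ := Real.rpow_pos_of_pos (by linarith) _
  have hTp2 : 2 ≤ T / p := by linarith
  have hY1 : (Y : ℝ) + 1 = ⌊T / p⌋₊ := by
    have : 1 ≤ ⌊T / p⌋₊ := by apply Nat.le_floor; push_cast; linarith
    have h7 : Y + 1 = ⌊T / p⌋₊ := by omega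
    exact_mod_cast h7
  have hY2 : (Y : ℝ) + 1 ≤ T / p := by rw [hY1]; exact Nat.floor_le (by positivity)
  have hY3 : T / p - 2 < Y := by
    have := Nat.lt_floor_add_one (T / p)
    linarith
  have hX1 : (X : ℝ) ≤ T * ((i : ℝ) / p) := by rw [hX]; exact Nat.floor_le (by positivity)
  have hX2 : T * ((i : ℝ) / p) < X + 1 := by rw [hX]; exact Nat.lt_floor_add_one _
  have hip : 1 ≤ (i : ℝ) / p := by rw [le_div_iff₀ hp0]; linarith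
  have hip2 : (i : ℝ) / p ≤ 2 := by rw [div_le_iff₀ hp0]; linarith
  have hX3 : T < X + 1 := by nlinarith
  have hX4 : (X : ℝ) ≤ 2 * T := by nlinarith
  have hXX0 : X₀ ≤ X := by
    have : (X₀ : ℝ) < X := by linarith
    exact_mod_cast this.le
  have hYX : Y ≤ X := by
    have h8 : T / p ≤ T := div_le_self hT0.le hp1
    have : (Y : ℝ) < X := by linarith
    exact_mod_cast this.le
  have hXθ : (X : ℝ) ^ θ ≤ Y := by
    have : (X : ℝ) ^ θ ≤ (2 * T) ^ θ := Real.rpow_le_rpow (Nat.cast_nonneg _) hX4 hθ0.le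
    linarith
  have hcard := hX₀ X hXX0 Y hXθ hYX
  have hk2 : 2 / q ≤ 1 / T ^ 2 := by
    rw [div_le_div_iff₀ hq0 (by positivity)]
    linarith
  have hTT : 1 / T ^ 2 ≤ 1 / T := by
    apply one_div_le_one_div_of_le hT0
    nlinarith
  have hcell := cell_int P T hT0 (kk T) (by rw [← hq]; linarith) ((i : ℝ) / p) (((i : ℝ) + 1) / p) X Y hX2 (by
    have e : T * (((i : ℝ) + 1) / p) = T * ((i : ℝ) / p) + T / p := by ring
    rw [e]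
    linarith)
  rw [← hq] at hcell
  have hu0 : 0 ≤ 1 / T - 1 / T ^ 2 := by linarith
  have h9 : κ * (T / p - 2) * (1 / T - 1 / T ^ 2) ≤
      (((Finset.Ioc X (X + Y)).filter P).card : ℝ) * (1 / T - 2 / q) := by
    apply mul_le_mul _ (by linarith) hu0 (Nat.cast_nonneg _)
    exact le_trans (mul_le_mul_of_nonneg_left hY3.le hκ0) hcard
  have h10 : p * (κ * (T / p - 2) * (1 / T - 1 / T ^ 2)) ≤
      p * ∫ β in Set.Ico ((i : ℝ) / p) (((i : ℝ) + 1) / p), XX P T (kk T) β :=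
    mul_le_mul_of_nonneg_left (h9.trans hcell) hp0.le
  refine le_trans ?_ h10
  have e3 : p * (κ * (T / p - 2) * (1 / T - 1 / T ^ 2)) = κ * ((1 - 2 * (p / T)) * (1 - 1 / T)) := by
    field_simp
  rw [e3]
  have h11 : p / T ≤ T ^ (σ - 1) := by
    rw [div_le_iff₀ hT0]
    have : T ^ (σ - 1) * T = T ^ σ := by
      nth_rewrite 2 [← Real.rpow_one T]
      rw [← Real.rpow_add hT0]
      norm_num
    rw [this]; exact hpT
  have h12 : 0 ≤ p / T := by positivity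
  have h13 : 0 < 1 / T := by positivity
  have h14 : 1 - (2 * T ^ (σ - 1) + 1 / T) ≤ (1 - 2 * (p / T)) * (1 - 1 / T) := by nlinarith
  have h15 := mul_le_mul_of_nonneg_left h14 hκ0
  linarith

end Pool.Agent.Helper855N
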