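import Pool.Agent.H27.G.R_pool_sql_team_seeded_620a6dc7.Helper855N.Metric

set_option autoImplicit false
set_option linter.unusedSectionVars false

/-! The metric theorem, second part. -/

namespace Pool.Agent.Helper855N

open MeasureTheory Filter Topology Finset

/-- the weights -/
noncomputable def wt (t : ℕ → ℝ) (n : ℕ) : ℝ := Real.log (Real.log (t (n + 1))) - Real.log (Real.log (t n))

lemma log_ge_one {x : ℝ} (h : 3 ≤ x) : 1 ≤ Real.log x := by
  rw [Real.le_log_iff_exp_le (by linarith)]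
  linarith [Real.exp_one_lt_d9]

lemma WW_wt (t : ℕ → ℝ) (N : ℕ) : WW (wt t) N = Real.log (Real.log (t N)) - Real.log (Real.log (t 0)) := by
  unfold WW wt
  exact Finset.sum_range_sub (fun n => Real.log (Real.log (t n))) N

lemma wt_nonneg (t : ℕ → ℝ) (hmono : Monotone t) (h3 : ∀ n, 3 ≤ t n) (n : ℕ) : 0 ≤ wt t n := by
  unfold wt
  have h1 := log_ge_one (h3 n)
  have h2 : Real.log (t n) ≤ Real.log (t (n + 1)) :=
    Real.log_le_log (by linarith [h3 n]) (hmono (Nat.le_succ n))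
  have h4 := Real.log_le_log (by linarith) h2
  linarith

/-- the sequence used on `[1, 2)` -/
noncomputable def TT (t : ℕ → ℝ) (r : ℝ) (n : ℕ) : ℝ := max 4 (r * t n)

lemma log4 : 1 ≤ Real.log 4 := log_ge_one (by norm_num)

lemma log4' : Real.log 4 ≤ 2 := by
  rw [Real.log_le_iff_le_exp (by norm_num)]
  have h1 : (2.7 : ℝ) < Real.exp 1 := by linarith [Real.exp_one_gt_d9]
  have h2 : Real.exp 2 = Real.exp 1 * Real.exp 1 := by rw [← Real.exp_add]; norm_num
  rw [h2]
  nlinarith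

lemma TT_log (t : ℕ → ℝ) (h3 : ∀ n, 3 ≤ t n) (r : ℝ) (hr : 0 < r) (n : ℕ) :
    Real.log (TT t r n) ≤ (2 + |Real.log r|) * Real.log (t n) ∧
    Real.log (t n) ≤ (2 + |Real.log r|) * Real.log (TT t r n) := by
  have h1 := log_ge_one (h3 n)
  have ht0 : 0 < t n := by linarith [h3 n]
  have h4 : 4 ≤ TT t r n := le_max_left _ _
  have h5 : r * t n ≤ TT t r n := le_max_right _ _
  have h6 : 1 ≤ Real.log (TT t r n) := log_ge_one (by linarith)
  have e : Real.log (r * t n) = Real.log r + Real.log (t n) := Real.log_mul hr.ne' ht0.ne'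
  have ha := abs_nonneg (Real.log r)
  have hb := le_abs_self (Real.log r)
  have hc := neg_abs_le (Real.log r)
  constructor
  · rcases max_choice 4 (r * t n) with h | h
    · have : TT t r n = 4 := h
      rw [this]
      have := log4'
      nlinarith
    · have : TT t r n = r * t n := h
      rw [this, e]
      nlinarith
  · have h7 : Real.log (r * t n) ≤ Real.log (TT t r n) := Real.log_le_log (by positivity) h5
    rw [e] at h7
    nlinarith

lemma block (t : ℕ → ℝ) (hmono : Monotone t) (h3 : ∀ n, 3 ≤ t n) (β : ℝ) (hβ : ∀ n, t (n + 1) ≤ t n ^ β)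
    (r : ℝ) (hr : 0 < r) (σ : ℝ) (hσ0 : 0 < σ) (hσ1 : σ ≤ 1) :
    ∃ B : ℝ, ∀ n N, ∑ m ∈ (Ico n N).filter (fun m => ll σ (TT t r m) < kk (TT t r n)), wt t m ≤ B := by
  obtain ⟨D, hD⟩ : ∃ D : ℝ, D = 2 + |Real.log r| := ⟨_, rfl⟩
  have hD1 : 2 ≤ D := by rw [hD]; linarith [abs_nonneg (Real.log r)]
  obtain ⟨b, hb⟩ : ∃ b : ℝ, b = max 1 β := ⟨_, rfl⟩
  have hb1 : 1 ≤ b := by rw [hb]; exact le_max_left _ _
  have hbβ : β ≤ b := by rw [hb]; exact le_max_right _ _
  have hC1 : 1 ≤ b * D ^ 2 * (3 / σ) := by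
    have h1 : 1 ≤ 3 / σ := by rw [le_div_iff₀ hσ0]; linarith
    have h2 : 1 ≤ b * D ^ 2 := by nlinarith
    nlinarith
  refine ⟨Real.log (b * D ^ 2 * (3 / σ)), fun n N => ?_⟩
  obtain ⟨S, hS⟩ : ∃ S, S = (Ico n N).filter (fun m => ll σ (TT t r m) < kk (TT t r n)) := ⟨_, rfl⟩
  rw [← hS]
  rcases S.eq_empty_or_nonempty with h0 | h0
  · rw [h0, sum_empty]
    exact Real.log_nonneg hC1
  · obtain ⟨M, hM⟩ : ∃ M, M = S.max' h0 := ⟨_, rfl⟩
    have hMS : M ∈ S := by rw [hM]; exact S.max'_mem h0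
    have hle : ∀ m ∈ S, m ≤ M := fun m hm => by rw [hM]; exact S.le_max' m hm
    have hsub : S ⊆ Ico n (M + 1) := by
      intro m hm
      have h1 := hle m hm
      rw [hS, mem_filter, mem_Ico] at hm
      rw [mem_Ico]
      omega
    have h1 : ∑ m ∈ S, wt t m ≤ ∑ m ∈ Ico n (M + 1), wt t m :=
      sum_le_sum_of_subset_of_nonneg hsub (fun m _ _ => wt_nonneg t hmono h3 m)
    have hMS2 := hMS
    rw [hS, mem_filter, mem_Ico] at hMS2
    obtain ⟨⟨hnM, -⟩, hlk⟩ := hMS2
    have h2 : ∑ m ∈ Ico n (M + 1), wt t m = Real.log (Real.log (t (M + 1))) - Real.log (Real.log (t n)) := by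
      rw [Finset.sum_Ico_eq_sub _ (by omega)]
      have e1 := WW_wt t (M + 1)
      have e2 := WW_wt t n
      unfold WW at e1 e2
      rw [e1, e2]
      ring
    refine h1.trans ?_
    rw [h2]
    -- the levels
    have hTM4 : 4 ≤ TT t r M := le_max_left _ _
    have hTn4 : 4 ≤ TT t r n := le_max_left _ _
    have hlog2 : 0 < Real.log 2 := Real.log_pos (by norm_num)
    have hl2 : 2 ≤ Real.logb 2 (TT t r n) := by
      rw [Real.le_logb_iff_rpow_le (by norm_num) (by linarith)]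
      norm_num
      exact hTn4
    have h4 : σ * Real.logb 2 (TT t r M) < (ll σ (TT t r M) : ℝ) + 1 := Nat.lt_floor_add_one _
    have h5 : (ll σ (TT t r M) : ℝ) + 1 ≤ kk (TT t r n) := by exact_mod_cast hlk
    have h6 : (kk (TT t r n) : ℝ) < 2 * Real.logb 2 (TT t r n) + 2 := by
      unfold kk
      push_cast
      have := Nat.ceil_lt_add_one (show 0 ≤ 2 * Real.logb 2 (TT t r n) by linarith)
      linarith
    have h7 : σ * Real.logb 2 (TT t r M) ≤ 3 * Real.logb 2 (TT t r n) := by linarith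
    have h8 : Real.log (TT t r M) ≤ 3 / σ * Real.log (TT t r n) := by
      have e1 : Real.logb 2 (TT t r M) = Real.log (TT t r M) / Real.log 2 := rfl
      have e2 : Real.logb 2 (TT t r n) = Real.log (TT t r n) / Real.log 2 := rfl
      rw [e1, e2, ← mul_div_assoc, ← mul_div_assoc, div_le_div_iff_of_pos_right hlog2] at h7
      rw [div_mul_eq_mul_div, le_div_iff₀ hσ0]
      linarith
    obtain ⟨hn1, hn2⟩ := TT_log t h3 r hr n
    obtain ⟨hM1, hM2⟩ := TT_log t h3 r hr M
    rw [← hD] at hn1 hn2 hM1 hM2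
    have hln := log_ge_one (h3 n)
    have hlM := log_ge_one (h3 M)
    have h9 : Real.log (t (M + 1)) ≤ b * Real.log (t M) := by
      have h10 : Real.log (t (M + 1)) ≤ Real.log (t M ^ β) :=
        Real.log_le_log (by linarith [h3 (M + 1)]) (hβ M)
      rw [Real.log_rpow (by linarith [h3 M])] at h10
      nlinarith
    have h11 : Real.log (t (M + 1)) ≤ b * D ^ 2 * (3 / σ) * Real.log (t n) := by
      calc Real.log (t (M + 1)) ≤ b * Real.log (t M) := h9
        _ ≤ b * (D * Real.log (TT t r M)) := mul_le_mul_of_nonneg_left hM2 (by linarith)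
        _ ≤ b * (D * (3 / σ * Real.log (TT t r n))) := by
            apply mul_le_mul_of_nonneg_left _ (by linarith)
            exact mul_le_mul_of_nonneg_left h8 (by linarith)
        _ ≤ b * (D * (3 / σ * (D * Real.log (t n)))) := by
            apply mul_le_mul_of_nonneg_left _ (by linarith)
            apply mul_le_mul_of_nonneg_left _ (by linarith)
            exact mul_le_mul_of_nonneg_left hn1 (by positivity)
        _ = b * D ^ 2 * (3 / σ) * Real.log (t n) := by ring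
    have hlM1 := log_ge_one (h3 (M + 1))
    have h12 := Real.log_le_log (by linarith) h11
    rw [Real.log_mul (by linarith) (by linarith)] at h12
    linarith

open Classical in
lemma metric_one (P : ℕ → Prop) (θ κ : ℝ) (hθ0 : 0 < θ) (hθ1 : θ < 1) (hκ0 : 0 ≤ κ)
    (hP : ∀ᶠ X : ℕ in atTop, ∀ Y : ℕ, (X : ℝ) ^ θ ≤ Y → Y ≤ X →
      κ * Y ≤ (((Finset.Ioc X (X + Y)).filter P).card : ℝ))
    (t : ℕ → ℝ) (hmono : Monotone t) (h3 : ∀ n, 3 ≤ t n) (htop : Tendsto t atTop atTop)
    (β : ℝ) (hβ : ∀ n, t (n + 1) ≤ t n ^ β) (r : ℝ) (hr : 0 < r) :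
    ∀ᵐ α ∂mu, ∀ ε : ℝ, 0 < ε → ∀ᶠ N in atTop, (κ - ε) * Real.log (Real.log (t N)) ≤
      ∑ n ∈ (range N).filter (fun n => P ⌊r * t n * α⌋₊), wt t n := by
  obtain ⟨σ, hσ⟩ : ∃ σ, σ = (1 - θ) / 2 := ⟨_, rfl⟩
  have hσ0 : 0 < σ := by rw [hσ]; linarith
  have hσ1 : σ < 1 := by rw [hσ]; linarith
  obtain ⟨B, hB⟩ := block t hmono h3 β hβ r hr σ hσ0 hσ1.le
  have hll : Tendsto (fun N => Real.log (Real.log (t N))) atTop atTop :=
    Real.tendsto_log_atTop.comp (Real.tendsto_log_atTop.comp htop)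
  have hWW : Tendsto (WW (wt t)) atTop atTop := by
    have e : WW (wt t) = fun N => Real.log (Real.log (t N)) + (- Real.log (Real.log (t 0))) := by
      funext N
      rw [WW_wt]; ring
    rw [e]
    exact tendsto_atTop_add_const_right _ _ hll
  have hTtop : Tendsto (TT t r) atTop atTop :=
    tendsto_atTop_mono (fun n => le_max_right _ _) (htop.const_mul_atTop hr)
  have h := lln_cond mu FF FF_le FF_mono (fun n => XX P (TT t r n) (kk (TT t r n)))
    (fun n => kk (TT t r n)) (fun n => ll σ (TT t r n))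
    (fun n => ll_lt_kk σ _ hσ0.le hσ1.le (by have : 4 ≤ TT t r n := le_max_left _ _; linarith))
    (fun n => (XX_meas P _ _).stronglyMeasurable) (fun n α => XX_nonneg P _ _ α) (fun n α => XX_le_one P _ _ α)
    κ (by
      intro ε hε
      have h1 := hTtop.eventually (cond_lower P θ κ hθ0 hθ1 hκ0 hP ε hε)
      rw [← hσ] at h1
      filter_upwards [h1] with n hn
      unfold mu
      rw [ae_restrict_iff' measurableSet_Ico]
      filter_upwards with α hα
      exact hn α hα)
    (wt t) (wt_nonneg t hmono h3) B hB hWW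
  have hIco : ∀ᵐ α ∂mu, α ∈ Set.Ico (1 : ℝ) 2 := by
    unfold mu
    exact ae_restrict_mem measurableSet_Ico
  obtain ⟨n₁, hn₁⟩ := eventually_atTop.1 ((htop.const_mul_atTop hr).eventually_ge_atTop 4)
  filter_upwards [h, hIco] with α hα hα1 ε hε
  obtain ⟨L₀, hL₀⟩ : ∃ L₀, L₀ = Real.log (Real.log (t 0)) := ⟨_, rfl⟩
  have hev : ∀ᶠ L : ℝ in atTop, (κ - ε) * L ≤ (κ - ε / 2) * (L - L₀) - WW (wt t) n₁ := by
    filter_upwards [eventually_ge_atTop (((κ - ε / 2) * L₀ + WW (wt t) n₁) / (ε / 2))] with L hL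
    rw [div_le_iff₀ (by positivity)] at hL
    linarith
  filter_upwards [hα (ε / 2) (by positivity), hll.eventually hev] with N hN hN2
  refine hN2.trans ?_
  rw [WW_wt, ← hL₀] at hN
  have hmain : SS (wt t) (fun n => XX P (TT t r n) (kk (TT t r n))) N α ≤
      (∑ n ∈ (range N).filter (fun n => P ⌊r * t n * α⌋₊), wt t n) + WW (wt t) n₁ := by
    unfold SS
    have hpt : ∀ n ∈ range N, wt t n * XX P (TT t r n) (kk (TT t r n)) α ≤
        (if P ⌊r * t n * α⌋₊ then wt t n else 0) + (if n < n₁ then wt t n else 0) := by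
      intro n _
      have hw := wt_nonneg t hmono h3 n
      by_cases hn : n < n₁
      · rw [if_pos hn]
        have h5 : wt t n * XX P (TT t r n) (kk (TT t r n)) α ≤ wt t n * 1 :=
          mul_le_mul_of_nonneg_left (XX_le_one P _ _ α) hw
        have h6 : 0 ≤ (if P ⌊r * t n * α⌋₊ then wt t n else 0) := by split_ifs <;> simp [hw]
        linarith
      · rw [if_neg hn, add_zero]
        have hT : TT t r n = r * t n := max_eq_right (hn₁ n (by omega))
        have hT0 : 0 < r * t n := by have := hn₁ n (by omega); linarith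
        rw [hT]
        by_cases hx : XX P (r * t n) (kk (r * t n)) α = 0
        · rw [hx, mul_zero]
          split_ifs <;> simp [hw]
        · have h7 := XX_imp P (r * t n) hT0 _ α (by linarith [hα1.1]) hx
          rw [if_pos h7]
          calc wt t n * XX P (r * t n) (kk (r * t n)) α ≤ wt t n * 1 :=
                mul_le_mul_of_nonneg_left (XX_le_one P _ _ α) hw
            _ = wt t n := mul_one _
    refine (sum_le_sum hpt).trans ?_
    rw [sum_add_distrib]
    apply add_le_add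
    · rw [sum_filter]
    · rw [← sum_filter]
      unfold WW
      apply sum_le_sum_of_subset_of_nonneg
      · intro n hn
        rw [mem_filter] at hn
        rw [mem_range]
        exact hn.2
      · intro n _ _
        exact wt_nonneg t hmono h3 n
  linarith

open Classical in
/-- **The metric theorem.** -/
theorem metric (P : ℕ → Prop) (θ κ : ℝ) (hθ0 : 0 < θ) (hθ1 : θ < 1) (hκ0 : 0 ≤ κ)
    (hP : ∀ᶠ X : ℕ in atTop, ∀ Y : ℕ, (X : ℝ) ^ θ ≤ Y → Y ≤ X →
      κ * Y ≤ (((Finset.Ioc X (X + Y)).filter P).card : ℝ))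
    (t : ℕ → ℝ) (hmono : Monotone t) (h3 : ∀ n, 3 ≤ t n) (htop : Tendsto t atTop atTop)
    (β : ℝ) (hβ : ∀ n, t (n + 1) ≤ t n ^ β) :
    ∀ᵐ α : ℝ, 0 < α → ∀ ε : ℝ, 0 < ε → ∀ᶠ N in atTop, (κ - ε) * Real.log (Real.log (t N)) ≤
      ∑ n ∈ (range N).filter (fun n => P ⌊α * t n⌋₊), wt t n := by
  have key : ∀ j : ℤ, ∀ᵐ α : ℝ, ((2 : ℝ) ^ j)⁻¹ * α ∈ Set.Ico (1 : ℝ) 2 → ∀ ε : ℝ, 0 < ε →
      ∀ᶠ N in atTop, (κ - ε) * Real.log (Real.log (t N)) ≤
        ∑ n ∈ (range N).filter (fun n => P ⌊α * t n⌋₊), wt t n := by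
    intro j
    have hj : (0 : ℝ) < 2 ^ j := by positivity
    have h1 := metric_one P θ κ hθ0 hθ1 hκ0 hP t hmono h3 htop β hβ ((2 : ℝ) ^ j) hj
    unfold mu at h1
    rw [ae_restrict_iff' measurableSet_Ico] at h1
    have hq : Measure.QuasiMeasurePreserving (fun α : ℝ => ((2 : ℝ) ^ j)⁻¹ * α) volume volume := by
      refine ⟨measurable_const_mul _, ?_⟩
      rw [Real.map_volume_mul_left (inv_ne_zero hj.ne')]
      exact Measure.smul_absolutelyContinuous
    have h2 := hq.ae h1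
    filter_upwards [h2] with α hα hα1 ε hε
    have h4 := hα hα1 ε hε
    filter_upwards [h4] with N hN
    refine hN.trans (le_of_eq ?_)
    have e : ∀ n, (2 : ℝ) ^ j * t n * (((2 : ℝ) ^ j)⁻¹ * α) = α * t n := by
      intro n
      field_simp
    simp_rw [e]
  rw [← ae_all_iff] at key
  filter_upwards [key] with α hα hα0
  obtain ⟨j, hj⟩ := exists_mem_Ico_zpow hα0 (one_lt_two)
  apply hα j
  have hj0 : (0 : ℝ) < 2 ^ j := by positivity
  have e1 : (2 : ℝ) ^ (j + 1) = 2 ^ j * 2 := zpow_add_one₀ (by norm_num) j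
  rw [Set.mem_Ico, e1] at hj
  rw [Set.mem_Ico, inv_mul_eq_div, le_div_iff₀ hj0, div_lt_iff₀ hj0]
  constructor
  · linarith [hj.1]
  · linarith [hj.2]

end Pool.Agent.Helper855N
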